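import Pool.Agent.TI.Renewal
import Pool.Agent.TI.RokhlinUpper
import Pool.Agent.TI.RokhlinLower
import Pool.Agent.TI.Exist
import Pool.Agent.TI.Mirror
import Pool.Agent.TI.Glue
import Pool.Agent.TI.Invert
import Pool.Agent.TI.AeConst
import Pool.Agent.TI.LowerLim
import Pool.Agent.TI.AcipLim

/-! The Tanaka-Ito entropy function is Lipschitz continuous on the open unit interval. -/

open MeasureTheory Filter Topology Set
open scoped ENNReal NNReal

namespace Pool.Agent.Results.MP_38abd5_an.Main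

open TanakaIto

/-- Everything about one parameter a in [1/2,1). -/
lemma one_param : ∃ C1 : ℝ, 0 < C1 ∧ ∀ a ∈ Ico (1 / 2 : ℝ) 1, ∃ lam : ℝ, 0 < lam ∧ lam ≤ C1 ∧
    (∀ᵐ x ∂(volume.restrict (Ioo (-1 : ℝ) 1)),
      Tendsto (fun n : ℕ => (N a (Real.exp (-(n : ℝ))) x : ℝ) / n) atTop (𝓝 (2 / lam))) ∧
    ∀ μ, IsAcip a μ → ksEntropy μ (T a) = (lam : EReal) := by
  obtain ⟨C, hC, hB⟩ := renewal_bound
  obtain ⟨c0, hc0, hlow⟩ := limsup_lower hC hB
  refine ⟨2 / c0, by positivity, fun a ha => ?_⟩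
  have ha' : a ∈ Ioo (0:ℝ) 1 := ⟨by linarith [ha.1], ha.2⟩
  obtain ⟨Lp, Lm, hL⟩ := ae_const_lim ha
  have hLp : c0 ≤ Lp := hlow a ha Lp (hL.mono fun x hx => hx.1)
  have hLp0 : 0 < Lp := hc0.trans_le hLp
  -- for every acip, the integral of psi is 2 / Lp and Lm = Lp
  have key : ∀ μ, IsAcip a μ → Integrable psi μ ∧ ∫ x, psi x ∂μ = 2 / Lp ∧ Lm = Lp := by
    intro μ hμ
    obtain ⟨h1, h2, h3⟩ := acip_limit ha hμ hL hLp0
    have hJ : 0 ≤ ∫ x, psi x ∂μ := by
      refine integral_nonneg_of_ae ?_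
      filter_upwards [ae_good ha' hμ (p := fun _ => True) (by simp)] with x hx
      exact psi_nonneg ⟨hx.2.2.1.le, hx.2.2.2.le⟩
    have hle : Lm ≤ Lp := by
      have hne : ∃ x : ℝ, x ∈ Ioo (-1 : ℝ) 1 ∧
          limsup (fun n : ℕ => (N a (Real.exp (-(n : ℝ))) x : ℝ) / n) atTop = Lp ∧
          liminf (fun n : ℕ => (N a (Real.exp (-(n : ℝ))) x : ℝ) / n) atTop = Lm := by
        have hprob := hμ.prob
        have := (ae_good ha' hμ hL).exists
        obtain ⟨x, hx⟩ := this
        exact ⟨x, hx.2.2, hx.1⟩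
      obtain ⟨x, hx, e1, e2⟩ := hne
      rw [← e1, ← e2]
      refine liminf_le_limsup ?_ ?_
      · exact isBoundedUnder_of ⟨7, fun n => A_le ha' hx n⟩
      · exact isBoundedUnder_of ⟨0, fun n => A_nonneg a x n⟩
    have hJpos : 0 < ∫ x, psi x ∂μ := by
      rcases hJ.lt_or_eq with h | h
      · exact h
      · rw [← h] at h3; norm_num at h3
    have heq : Lm = Lp := by
      refine le_antisymm hle ?_
      by_contra hcon
      push Not at hcon
      nlinarith
    refine ⟨h1, ?_, heq⟩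
    rw [eq_div_iff hLp0.ne']
    rw [heq] at h3
    linarith
  obtain ⟨μ0, hμ0⟩ := exists_acip hB ha
  obtain ⟨-, -, hLmLp⟩ := key μ0 hμ0
  have hlim : ∀ᵐ x ∂(volume.restrict (Ioo (-1 : ℝ) 1)),
      Tendsto (fun n : ℕ => (N a (Real.exp (-(n : ℝ))) x : ℝ) / n) atTop (𝓝 (2 / (2 / Lp))) := by
    have h2 : 2 / (2 / Lp) = Lp := by field_simp
    rw [h2]
    filter_upwards [hL, ae_restrict_mem measurableSet_Ioo] with x hx hx'
    refine tendsto_of_liminf_eq_limsup (by rw [hx.2, hLmLp]) hx.1 ?_ ?_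
    · exact isBoundedUnder_of ⟨7, fun n => A_le ha' hx' n⟩
    · exact isBoundedUnder_of ⟨0, fun n => A_nonneg a x n⟩
  refine ⟨2 / Lp, by positivity, ?_, hlim, ?_⟩
  · exact div_le_div_of_nonneg_left (by norm_num) hc0 hLp
  · intro μ hμ
    have hprob := hμ.prob
    obtain ⟨hint, hJ, -⟩ := key μ hμ
    have hbirk : ∀ᵐ x ∂μ, Tendsto (fun n : ℕ => birkhoffSum (T a) psi n x / n) atTop
        (𝓝 (2 / Lp)) := by
      filter_upwards [ae_good ha' hμ hlim] with x hx
      exact birkhoff_of_N ha' hx.2.2 hx.2.1 (by positivity) hx.1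
    refine le_antisymm ?_ ?_
    · exact ks_le hB comparable ha hμ (by positivity) hbirk
    · exact le_ks comparable ha hμ (by positivity) hint hbirk

/-- The entropy function of the Tanaka-Ito maps: there is a function h such that h a is the
Kolmogorov-Sinai entropy of T a with respect to every absolutely continuous invariant
probability measure (and such a measure exists), and h is Lipschitz on the unit interval. -/
theorem result :
    ∃ (h : ℝ → ℝ) (C : ℝ≥0),
      (∀ a ∈ Ioo (0 : ℝ) 1, (∃ μ : Measure ℝ, IsAcip a μ) ∧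
        ∀ μ : Measure ℝ, IsAcip a μ → ksEntropy μ (T a) = (h a : EReal)) ∧
      LipschitzOnWith C h (Ioo (0 : ℝ) 1) := by
  obtain ⟨C, hC, hB⟩ := renewal_bound
  obtain ⟨C1, hC1, hone⟩ := one_param
  choose! lam hlam using hone
  -- Lipschitz bound on [1/2, 1)
  have hlip : ∀ a ∈ Ico (1 / 2 : ℝ) 1, ∀ b ∈ Ico (1 / 2 : ℝ) 1, a < b →
      |lam a - lam b| ≤ 4 * C * C1 ^ 2 * (b - a) := by
    intro a ha b hb hab
    obtain ⟨ha0, ha1, haL, -⟩ := hlam a ha
    obtain ⟨hb0, hb1, hbL, -⟩ := hlam b hb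
    have hg := glue hC hB ha hb hab haL hbL
    have heq : lam a - lam b = (2 / lam b - 2 / lam a) * (lam a * lam b) / 2 := by
      field_simp
    rw [heq, abs_div, abs_mul, abs_of_pos (mul_pos ha0 hb0), abs_of_pos (by norm_num : (0:ℝ) < 2),
      abs_sub_comm]
    have h1 : lam a * lam b ≤ C1 ^ 2 := by nlinarith
    have h2 : |2 / lam a - 2 / lam b| * (lam a * lam b) ≤ (8 * C * (b - a)) * C1 ^ 2 := by
      refine mul_le_mul hg h1 (mul_pos ha0 hb0).le ?_
      have : 0 < b - a := by linarith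
      positivity
    linarith
  have hlip' : ∀ a ∈ Ico (1 / 2 : ℝ) 1, ∀ b ∈ Ico (1 / 2 : ℝ) 1,
      |lam a - lam b| ≤ 4 * C * C1 ^ 2 * |a - b| := by
    intro a ha b hb
    rcases lt_trichotomy a b with h | h | h
    · rw [abs_sub_comm a b, abs_of_pos (show 0 < b - a by linarith)]
      exact hlip a ha b hb h
    · subst h; simp
    · rw [abs_sub_comm (lam a), abs_of_pos (show 0 < a - b by linarith)]
      exact hlip b hb a ha h
  set φ : ℝ → ℝ := fun a => if a < 1 / 2 then 1 - a else a with hφ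
  have hφmem : ∀ a ∈ Ioo (0 : ℝ) 1, φ a ∈ Ico (1 / 2 : ℝ) 1 := by
    intro a ha
    simp only [hφ]
    split_ifs with h
    · exact ⟨by linarith, by linarith [ha.1]⟩
    · exact ⟨by linarith, ha.2⟩
  have hφlip : ∀ a b : ℝ, |φ a - φ b| ≤ |a - b| := by
    intro a b
    simp only [hφ]
    split_ifs with h1 h2 h2
    · rw [show (1 - a) - (1 - b) = -(a - b) by ring, abs_neg]
    · rw [abs_sub_comm a b, abs_of_nonneg (show 0 ≤ b - a by linarith), abs_le]
      constructor <;> linarith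
    · rw [abs_of_nonneg (show 0 ≤ a - b by linarith), abs_le]
      constructor <;> linarith
    · exact le_rfl
  have hconst : 0 ≤ 4 * C * C1 ^ 2 := by positivity
  refine ⟨fun a => lam (φ a), ⟨4 * C * C1 ^ 2, hconst⟩, ?_, ?_⟩
  · intro a ha
    by_cases h : a < 1 / 2
    · have hφa : φ a = 1 - a := by simp only [hφ]; rw [if_pos h]
      have hmem := hφmem a ha
      rw [hφa] at hmem
      have ha1 : (1 - a) ∈ Ioo (0 : ℝ) 1 := ⟨by linarith [ha.2], by linarith [ha.1]⟩
      constructor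
      · obtain ⟨μ, hμ⟩ := exists_acip hB hmem
        have := hμ.mirror ha1
        rw [sub_sub_cancel] at this
        exact ⟨_, this⟩
      · intro μ hμ
        rw [← ksEntropy_mirror ha hμ]
        simp only [hφa]
        exact (hlam (1 - a) hmem).2.2.2 _ (hμ.mirror ha)
    · have hφa : φ a = a := by simp only [hφ]; rw [if_neg h]
      have hmem := hφmem a ha
      rw [hφa] at hmem
      refine ⟨exists_acip hB hmem, fun μ hμ => ?_⟩
      simp only [hφa]
      exact (hlam a hmem).2.2.2 μ hμ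
  · refine LipschitzOnWith.of_dist_le_mul fun a ha b hb => ?_
    rw [Real.dist_eq, Real.dist_eq]
    refine (hlip' _ (hφmem a ha) _ (hφmem b hb)).trans ?_
    exact mul_le_mul_of_nonneg_left (hφlip a b) hconst

end Pool.Agent.Results.MP_38abd5_an.Main
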